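import Pool.Agent.V5helper26.SP.LOB1

set_option autoImplicit false

open Finset MeasureTheory Filter Topology

namespace Pool.Agent.V5helper26.SP

open Pool.Agent.V5helper51.MT (e g a G cube φ blk box cls cls_card cls_box split_sum G_cont a_dvd a_last sum_bd glue
  glue_one glue_two glue_last glue_inj a_bd)
open Pool.Agent.V5helper50.SP

/-- the pairs of the box -/
lemma box_pairs (k q : ℕ) (α : Fin (k - 1) → ℝ) (P : ℕ) (hP : 1 ≤ P) (E : ℝ)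
    (h : (cnt (a k q α) (fun _ : Fin k => range ((2 * k + 2) * P)) : ℝ) ≤ E) :
    (((box k P ×ˢ box k P).filter fun p : (Fin k → ℕ) × (Fin k → ℕ) =>
      ∑ i, a k q α (p.1 i) = ∑ i, a k q α (p.2 i)).card : ℝ) ≤ E := by
  classical
  refine le_trans ?_ h
  have hsub : box k P ⊆ Fintype.piFinset (fun _ : Fin k => range ((2 * k + 2) * P)) := by
    intro x hx
    unfold Pool.Agent.V5helper51.MT.box at hx
    rw [Fintype.mem_piFinset] at hx ⊢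
    intro i
    have h1 := hx i
    unfold blk at h1
    rw [mem_Icc] at h1
    rw [mem_range]
    have hi := i.2
    calc x i ≤ (2 * (i : ℕ) + 3) * P := h1.2
      _ < (2 * k + 2) * P := by
          apply Nat.mul_lt_mul_of_pos_right _ (by omega)
          omega
  have : (box k P ×ˢ box k P).filter (fun p : (Fin k → ℕ) × (Fin k → ℕ) =>
      ∑ i, a k q α (p.1 i) = ∑ i, a k q α (p.2 i)) ⊆
      (Fintype.piFinset (fun _ : Fin k => range ((2 * k + 2) * P)) ×ˢ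
        Fintype.piFinset (fun _ : Fin k => range ((2 * k + 2) * P))).filter
        fun p : (Fin k → ℕ) × (Fin k → ℕ) => ∑ i, a k q α (p.1 i) = ∑ i, a k q α (p.2 i) := by
    intro p hp
    rw [mem_filter, mem_product] at hp ⊢
    exact ⟨⟨hsub hp.1.1, hsub hp.1.2⟩, hp.2⟩
  have h2 := card_le_card this
  unfold cnt
  exact Nat.cast_le.2 (h2.trans (le_of_eq (by congr!)))

/-- the lower bound for the integral in terms of `n` -/
lemma int_low (hMTL : S_MTL) (k q r : ℕ) (hk : 2 ≤ k) (hq : 1 ≤ q) (α : Fin (k - 1) → ℝ) :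
    ∃ X₁ : ℕ, 1 ≤ X₁ ∧ ∀ X : ℕ, X₁ ≤ X → ∀ n : ℕ, (n : ℝ) ≤ (X : ℝ) ^ k / 2 → ∀ w : ℝ, X₁ ≤ w → (q : ℝ) * w ≤ n →
      1 / (12 * (k : ℝ) * (n : ℝ) ^ (((k : ℝ) - 1) / k)) ≤ ∫ u in (0 : ℝ)..X, φ (G k q r α u - w) := by
  obtain ⟨X₁, hX₁1, hX₁⟩ := hMTL k q r hk hq α
  refine ⟨X₁, hX₁1, fun X hX n hn w hw hqw => ?_⟩
  have hq1 : (1 : ℝ) ≤ q := by exact_mod_cast hq
  have hk1 : (2 : ℝ) ≤ k := by exact_mod_cast hk
  have hX1r : (1 : ℝ) ≤ X₁ := by exact_mod_cast hX₁1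
  have hw1 : 1 ≤ w := hX1r.trans hw
  have hqw1 : 1 ≤ (q : ℝ) * w := by nlinarith
  have h1 : w ≤ ((q : ℝ) * X) ^ k / (2 * q) := by
    rw [le_div_iff₀ (by positivity)]
    have h2 : (X : ℝ) ^ k ≤ ((q : ℝ) * X) ^ k := by
      apply pow_le_pow_left₀ (by positivity)
      have : (0 : ℝ) ≤ X := Nat.cast_nonneg X
      nlinarith
    nlinarith
  refine le_trans ?_ (hX₁ X hX w hw h1)
  have hexp : 0 ≤ ((k : ℝ) - 1) / k := div_nonneg (by linarith) (by linarith)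
  have h3 : ((q : ℝ) * w) ^ (((k : ℝ) - 1) / k) ≤ (n : ℝ) ^ (((k : ℝ) - 1) / k) :=
    Real.rpow_le_rpow (by linarith) hqw hexp
  have h4 : (0 : ℝ) < ((q : ℝ) * w) ^ (((k : ℝ) - 1) / k) := Real.rpow_pos_of_pos (by linarith) _
  apply one_div_le_one_div_of_le
  · positivity
  · gcongr

theorem t_LOB (hCM : Pool.Agent.V5helper51.MT.S_CM) (hMTL : S_MTL) (hGRW : S_GRW) : S_LOB := by
  intro k hk
  have hk1 : (2 : ℝ) ≤ k := by exact_mod_cast hk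
  have hB1 : 1 ≤ 4 * k * (2 * k + 1) ^ k := by
    have : 0 < 4 * k * (2 * k + 1) ^ k := by positivity
    omega
  set b : ℝ := ((4 * k * (2 * k + 1) ^ k : ℕ) : ℝ) with hb
  have hb1 : 1 ≤ b := by rw [hb]; exact_mod_cast hB1
  have hb0 : 0 < b := by linarith
  set K : ℝ := 4 * b * 2 ^ k with hK
  have h2k1 : (1 : ℝ) ≤ 2 ^ k := one_le_pow₀ (by norm_num)
  have hK1 : 1 ≤ K := by rw [hK]; nlinarith
  have hK0 : 0 < K := by linarith
  have hk0 : (0 : ℝ) < k := by linarith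
  set c₁ : ℝ := 1 / (4 ^ k * (12 * k * K)) with hc₁
  have hc₁0 : 0 < c₁ := by positivity
  refine ⟨c₁ / (2 * K ^ 2), by positivity, fun q hq α σ hσ0 hσ1 hPair hSup ρ => ?_⟩
  obtain ⟨x₀, -, ha⟩ := a_bd k q hk α
  obtain ⟨X₁, hX₁1, hX₁⟩ := int_low hMTL k q (ρ (Fin.last (2 * k))) hk hq α
  obtain ⟨C, hC, hPr⟩ := hPair
  obtain ⟨m₂, hm₂⟩ := hSup (ρ (Fin.last (2 * k))) (16 * (4 * k * (2 * k + 1) ^ k)) (by omega)
  obtain ⟨-, -, hfin, -⟩ := hGRW k q hk hq α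
  have hq0 : (0 : ℝ) < q := by exact_mod_cast (by omega : 0 < q)
  set D : ℝ := 2 * k + 2 with hD
  have hD0 : 0 < D := by positivity
  have hlim : Tendsto (fun P : ℕ => (P : ℝ) ^ (-(σ / 2))) atTop (𝓝 0) :=
    (tendsto_rpow_neg_atTop (by linarith : 0 < σ / 2)).comp tendsto_natCast_atTop_atTop
  set F : ℝ := 40 * (16 * b) * C * D ^ ((k : ℝ) + σ / 2) with hF
  have hF0 : 0 < F := by positivity
  have hε : 0 < c₁ / (2 * (q : ℝ) ^ (2 * k) * F) := by positivity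
  obtain ⟨P₄, hP₄⟩ := eventually_atTop.1 (hlim.eventually_le_const hε)
  set r : ℕ := ρ (Fin.last (2 * k)) with hr
  set Q : ℕ := x₀ + 2 * q + X₁ + q * X₁ + r ^ k with hQ
  set m₃ : ℕ := m₂ + Q + P₄ with hm₃
  have h2k : (1 : ℝ) < 2 ^ k := one_lt_pow₀ (by norm_num) (by omega)
  obtain ⟨n₀, hn₀⟩ := exists_nat_ge (4 * b * ((2 : ℝ) ^ k) ^ m₃)
  refine ⟨n₀, fun n hn hdvd => ?_⟩
  have hnn : 4 * b * ((2 : ℝ) ^ k) ^ m₃ ≤ n := hn₀.trans (by exact_mod_cast hn)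
  have hpm : (1 : ℝ) ≤ ((2 : ℝ) ^ k) ^ m₃ := one_le_pow₀ h2k1
  have hdiv : ((2 : ℝ) ^ k) ^ m₃ ≤ n / (4 * b) := by
    rw [le_div_iff₀ (by positivity)]
    linarith
  obtain ⟨m, hm1, hm2⟩ := exists_nat_pow_near (hpm.trans hdiv) h2k
  have hmm : m₃ ≤ m := by
    by_contra hcon
    have h1 : m + 1 ≤ m₃ := by omega
    have h2 : ((2 : ℝ) ^ k) ^ (m + 1) ≤ ((2 : ℝ) ^ k) ^ m₃ := pow_le_pow_right₀ h2k1 h1
    linarith
  have hPQ : Q + P₄ ≤ 2 ^ m := by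
    have := (Nat.lt_two_pow_self (n := m))
    omega
  set P : ℕ := 2 ^ m with hP
  have hPr' : (P : ℝ) = 2 ^ m := by rw [hP]; push_cast; rfl
  have hPk : ((2 : ℝ) ^ k) ^ m = (P : ℝ) ^ k := by rw [hPr', ← pow_mul, ← pow_mul, mul_comm]
  have hP0 : 1 ≤ P := by rw [hP]; exact Nat.one_le_two_pow
  have hPr1 : (1 : ℝ) ≤ P := by exact_mod_cast hP0
  have hPr0 : (0 : ℝ) < P := by linarith
  have hn1 : 4 * b * (P : ℝ) ^ k ≤ n := by
    rw [le_div_iff₀ (by positivity), hPk] at hm1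
    linarith
  have hn2 : (n : ℝ) ≤ 4 * b * (2 * (P : ℝ)) ^ k := by
    rw [div_lt_iff₀ (by positivity), pow_succ, hPk] at hm2
    rw [mul_pow]
    linarith
  have hnpos : (0 : ℝ) < n := lt_of_lt_of_le (by positivity) hn1
  set X : ℕ := 16 * (4 * k * (2 * k + 1) ^ k) * P with hX
  have hXr : (X : ℝ) = 16 * b * P := by rw [hX, hb]; push_cast; ring
  have hPX : P ≤ X := by
    rw [hX]
    nlinarith
  have hP3 : (q : ℝ) * X₁ + (r : ℝ) ^ k ≤ 2 * b * (P : ℝ) ^ k := by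
    have h1 : ((q * X₁ + r ^ k : ℕ) : ℝ) ≤ P := by
      exact_mod_cast (by omega : q * X₁ + r ^ k ≤ P)
    push_cast at h1
    have h2 : (P : ℝ) ≤ (P : ℝ) ^ k := by
      calc (P : ℝ) = (P : ℝ) ^ 1 := (pow_one _).symm
        _ ≤ _ := pow_le_pow_right₀ hPr1 (by omega)
    have h3 : (0 : ℝ) ≤ (P : ℝ) ^ k := by positivity
    nlinarith
  have hnX : (n : ℝ) ≤ (X : ℝ) ^ k / 2 := by
    refine hn2.trans ?_
    rw [hXr]
    have e5 : (2 * (P : ℝ)) ^ k = 2 ^ k * (P : ℝ) ^ k := mul_pow _ _ _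
    have e6 : (16 * b * P) ^ k = 16 ^ k * b ^ k * (P : ℝ) ^ k := by
      rw [mul_pow, mul_pow]
    have e7 : b ≤ b ^ k := by
      calc b = b ^ 1 := (pow_one _).symm
        _ ≤ _ := pow_le_pow_right₀ hb1 (by omega)
    have e8 : (16 : ℝ) ^ k = 8 ^ k * 2 ^ k := by rw [← mul_pow]; norm_num
    have e9 : (64 : ℝ) ≤ 8 ^ k := by
      calc (64 : ℝ) = 8 ^ 2 := by norm_num
        _ ≤ _ := pow_le_pow_right₀ (by norm_num) hk
    rw [e5, e6, e8]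
    have h11 : 8 * b ≤ 8 ^ k * b ^ k := by nlinarith
    calc 4 * b * (2 ^ k * (P : ℝ) ^ k) = (8 * b) * (2 ^ k * (P : ℝ) ^ k) / 2 := by ring
      _ ≤ (8 ^ k * b ^ k) * (2 ^ k * (P : ℝ) ^ k) / 2 := by
          gcongr
      _ = _ := by ring
  -- the pairs
  have hpair := hPr ((2 * k + 2) * P) (by nlinarith)
  have hbox := box_pairs k q α P hP0 _ hpair
  have hcn : 0 < 1 / (12 * (k : ℝ) * (n : ℝ) ^ (((k : ℝ) - 1) / k)) := by positivity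
  obtain ⟨S, hS1, hS2⟩ := scale2 hCM k q hk hq α ρ σ hσ0 hσ1 x₀ ha
    (1 / (12 * (k : ℝ) * (n : ℝ) ^ (((k : ℝ) - 1) / k))) hcn X₁ P X hX _ hbox (hm₂ m (by omega) X hX)
    (by omega) (by omega) hP3 n hn1 (hX₁ X (by omega) n hnX) hdvd
  have hSR : (S.card : ℝ) ≤ (R k q (2 * k + 1) α ρ n : ℝ) := by
    have h1 : S.card ≤ R k q (2 * k + 1) α ρ n := by
      unfold R
      rw [← Set.ncard_coe_finset]
      refine Set.ncard_le_ncard ?_ (hfin _ ρ n)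
      intro x hx
      have h2 := hS2 x hx
      exact ⟨fun i => (h2.1 i).2, h2.2⟩
    exact_mod_cast h1
  refine le_trans ?_ (hS1.trans hSR)
  -- the size of `n`
  have hnK : (n : ℝ) ≤ K * (P : ℝ) ^ k := by
    rw [hK]
    rw [mul_pow] at hn2
    linarith
  have hn0 : (0 : ℝ) ≤ n := Nat.cast_nonneg n
  have hKP1 : (n : ℝ) ≤ (K * P) ^ k := by
    rw [mul_pow]
    refine hnK.trans ?_
    have : K ≤ K ^ k := by
      calc K = K ^ 1 := (pow_one _).symm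
        _ ≤ _ := pow_le_pow_right₀ hK1 (by omega)
    gcongr
  have hroot : (n : ℝ) ^ (1 / (k : ℝ)) ≤ K * P := by
    calc (n : ℝ) ^ (1 / (k : ℝ)) ≤ ((K * P) ^ k) ^ (1 / (k : ℝ)) :=
          Real.rpow_le_rpow hn0 hKP1 (by positivity)
      _ = K * P := by
          rw [one_div, Real.pow_rpow_inv_natCast (by positivity) (by omega)]
  have hn3 : (n : ℝ) ^ (1 + 1 / (k : ℝ)) ≤ K ^ 2 * (P : ℝ) ^ (k + 1) := by
    rw [Real.rpow_add_of_nonneg hn0 (by norm_num) (by positivity), Real.rpow_one]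
    calc (n : ℝ) * (n : ℝ) ^ (1 / (k : ℝ)) ≤ (K * (P : ℝ) ^ k) * (K * P) := by gcongr
      _ = _ := by ring
  -- `n ^ ((k - 1) / k) ≤ K P ^ (k - 1)`
  have hn4 : (n : ℝ) ^ (((k : ℝ) - 1) / k) ≤ K * (P : ℝ) ^ (k - 1) := by
    have hexp0 : 0 ≤ ((k : ℝ) - 1) / k := div_nonneg (by linarith) (by linarith)
    have hexp1 : ((k : ℝ) - 1) / k ≤ 1 := by
      rw [div_le_one hk0]; linarith
    calc (n : ℝ) ^ (((k : ℝ) - 1) / k) ≤ (K * (P : ℝ) ^ k) ^ (((k : ℝ) - 1) / k) :=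
          Real.rpow_le_rpow hn0 hnK hexp0
      _ = K ^ (((k : ℝ) - 1) / k) * ((P : ℝ) ^ k) ^ (((k : ℝ) - 1) / k) :=
          Real.mul_rpow hK0.le (by positivity)
      _ ≤ K * (P : ℝ) ^ (k - 1) := by
          have h1 : K ^ (((k : ℝ) - 1) / k) ≤ K := by
            calc K ^ (((k : ℝ) - 1) / k) ≤ K ^ (1 : ℝ) := Real.rpow_le_rpow_of_exponent_le hK1 hexp1
              _ = K := Real.rpow_one _
          have h2 : ((P : ℝ) ^ k) ^ (((k : ℝ) - 1) / k) = (P : ℝ) ^ (k - 1) := by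
            rw [← Real.rpow_natCast, ← Real.rpow_mul hPr0.le, mul_div_cancel₀ _ (ne_of_gt hk0)]
            rw [← Real.rpow_natCast (P : ℝ) (k - 1)]
            congr 1
            rw [Nat.cast_sub (by omega)]
            simp
          rw [h2]
          gcongr
  have hk1' : (P : ℝ) ^ (k + 1) * (P : ℝ) ^ (k - 1) = (P : ℝ) ^ (2 * k) := by
    rw [← pow_add]; congr 1; omega
  have hn4' : (0 : ℝ) < (n : ℝ) ^ (((k : ℝ) - 1) / k) := Real.rpow_pos_of_pos hnpos _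
  -- the main term
  have hmain : c₁ / (q : ℝ) ^ (2 * k) * (P : ℝ) ^ (k + 1) ≤
      ((P : ℝ) / (2 * q)) ^ (2 * k) * (1 / (12 * (k : ℝ) * (n : ℝ) ^ (((k : ℝ) - 1) / k))) := by
    calc c₁ / (q : ℝ) ^ (2 * k) * (P : ℝ) ^ (k + 1)
        = ((P : ℝ) / (2 * q)) ^ (2 * k) * (1 / (12 * (k : ℝ) * (K * (P : ℝ) ^ (k - 1)))) := by
          rw [hc₁, div_pow, mul_pow, ← hk1', pow_mul 2 2 k]
          have : (2 : ℝ) ^ 2 = 4 := by norm_num
          rw [this]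
          field_simp
      _ ≤ _ := by
          gcongr
  -- the error term
  have herr : 40 * (X : ℝ) ^ (1 - σ) * (C * (((2 * k + 2) * P : ℕ) : ℝ) ^ ((k : ℝ) + σ / 2)) ≤
      c₁ / (2 * (q : ℝ) ^ (2 * k)) * (P : ℝ) ^ (k + 1) := by
    have h1 : (X : ℝ) ^ (1 - σ) ≤ 16 * b * (P : ℝ) ^ (1 - σ) := by
      rw [hXr, Real.mul_rpow (by positivity) (by positivity)]
      have h2 : (16 * b) ^ (1 - σ) ≤ 16 * b := by
        calc (16 * b) ^ (1 - σ) ≤ (16 * b) ^ (1 : ℝ) :=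
              Real.rpow_le_rpow_of_exponent_le (by linarith) (by linarith)
          _ = _ := Real.rpow_one _
      gcongr
    have h2 : (((2 * k + 2) * P : ℕ) : ℝ) ^ ((k : ℝ) + σ / 2) =
        D ^ ((k : ℝ) + σ / 2) * (P : ℝ) ^ ((k : ℝ) + σ / 2) := by
      have : (((2 * k + 2) * P : ℕ) : ℝ) = D * P := by rw [hD]; push_cast; ring
      rw [this, Real.mul_rpow hD0.le hPr0.le]
    have h3 : (P : ℝ) ^ (1 - σ) * (P : ℝ) ^ ((k : ℝ) + σ / 2) = (P : ℝ) ^ (-(σ / 2)) * (P : ℝ) ^ (k + 1) := by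
      rw [← Real.rpow_natCast (P : ℝ) (k + 1), ← Real.rpow_add hPr0, ← Real.rpow_add hPr0]
      congr 1
      push_cast
      ring
    have h4 := hP₄ P (by omega)
    rw [h2]
    calc 40 * (X : ℝ) ^ (1 - σ) * (C * (D ^ ((k : ℝ) + σ / 2) * (P : ℝ) ^ ((k : ℝ) + σ / 2)))
        ≤ 40 * (16 * b * (P : ℝ) ^ (1 - σ)) * (C * (D ^ ((k : ℝ) + σ / 2) * (P : ℝ) ^ ((k : ℝ) + σ / 2))) := by
          gcongr
      _ = F * ((P : ℝ) ^ (1 - σ) * (P : ℝ) ^ ((k : ℝ) + σ / 2)) := by rw [hF]; ring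
      _ = F * (P : ℝ) ^ (-(σ / 2)) * (P : ℝ) ^ (k + 1) := by rw [h3]; ring
      _ ≤ F * (c₁ / (2 * (q : ℝ) ^ (2 * k) * F)) * (P : ℝ) ^ (k + 1) := by
          gcongr
      _ = _ := by field_simp
  calc c₁ / (2 * K ^ 2) / (q : ℝ) ^ (2 * k) * (n : ℝ) ^ (1 + 1 / (k : ℝ))
      ≤ c₁ / (2 * K ^ 2) / (q : ℝ) ^ (2 * k) * (K ^ 2 * (P : ℝ) ^ (k + 1)) := by gcongr
    _ = c₁ / (2 * (q : ℝ) ^ (2 * k)) * (P : ℝ) ^ (k + 1) := by field_simp
    _ = c₁ / (q : ℝ) ^ (2 * k) * (P : ℝ) ^ (k + 1) - c₁ / (2 * (q : ℝ) ^ (2 * k)) * (P : ℝ) ^ (k + 1) := by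
        field_simp
        ring
    _ ≤ _ := by linarith

end Pool.Agent.V5helper26.SP
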