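import Pool.Agent.V5helper51.MT.FIN3
import Pool.Agent.V5helper50.SP.Stm

set_option autoImplicit false

open Finset MeasureTheory Filter Topology

namespace Pool.Agent.V5helper26.SP

open Pool.Agent.V5helper51.MT (e g a G cube φ blk box cls cls_card cls_box split_sum G_cont a_dvd a_last sum_bd glue
  glue_one glue_two glue_last glue_inj a_bd)
open Pool.Agent.V5helper50.SP

/-- one scale -/
theorem scale2 (hCM : Pool.Agent.V5helper51.MT.S_CM) (k q : ℕ) (hk : 2 ≤ k) (hq : 1 ≤ q) (α : Fin (k - 1) → ℝ)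
    (ρ : Fin (2 * k + 1) → ℕ) (σ : ℝ) (hσ0 : 0 < σ) (hσ1 : σ < 1) (x₀ : ℕ)
    (ha : ∀ x : ℕ, x₀ ≤ x → 0 ≤ a k q α x ∧ (a k q α x : ℝ) ≤ 2 * (x : ℝ) ^ k)
    (c : ℝ) (hc : 0 < c) (X₀ : ℕ)
    (P X : ℕ) (hX : X = 16 * (4 * k * (2 * k + 1) ^ k) * P) (E : ℝ)
    (hE : (((box k P ×ˢ box k P).filter fun p : (Fin k → ℕ) × (Fin k → ℕ) =>
      ∑ i, a k q α (p.1 i) = ∑ i, a k q α (p.2 i)).card : ℝ) ≤ E)
    (hS : ∀ γ : ℝ, |γ| ≤ (X : ℝ) ^ σ →
      ‖∑ z ∈ range X, e (γ * G k q (ρ (Fin.last (2 * k))) α z) -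
        ∫ u in (0 : ℝ)..X, e (γ * G k q (ρ (Fin.last (2 * k))) α u)‖ ≤ (X : ℝ) ^ (1 - σ))
    (hP1 : x₀ ≤ P) (hP2 : 2 * q ≤ P)
    (hP3 : (q : ℝ) * X₀ + (ρ (Fin.last (2 * k)) : ℝ) ^ k ≤
      2 * ((4 * k * (2 * k + 1) ^ k : ℕ) : ℝ) * (P : ℝ) ^ k)
    (n : ℕ) (hn1 : 4 * ((4 * k * (2 * k + 1) ^ k : ℕ) : ℝ) * (P : ℝ) ^ k ≤ n)
    (hX₀ : ∀ w : ℝ, X₀ ≤ w → (q : ℝ) * w ≤ n →
      c ≤ ∫ u in (0 : ℝ)..X, φ (G k q (ρ (Fin.last (2 * k))) α u - w))
    (hdvd : (q : ℤ) ∣ (n : ℤ) - ∑ i, (ρ i : ℤ) ^ k) :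
    ∃ S : Finset (Fin (2 * k + 1) → ℕ),
      ((P : ℝ) / (2 * q)) ^ (2 * k) * c - 40 * (X : ℝ) ^ (1 - σ) * E ≤ S.card ∧
      ∀ x ∈ S, (∀ i, 1 ≤ x i ∧ x i % q = ρ i % q) ∧ ∑ i, a k q α (x i) = n := by
  classical
  set B : ℕ := 4 * k * (2 * k + 1) ^ k with hB
  have hB1 : 1 ≤ B := by
    have : 0 < 4 * k * (2 * k + 1) ^ k := by positivity
    omega
  set r := ρ (Fin.last (2 * k)) with hr
  set ρ₁ : Fin k → ℕ := fun i => ρ ⟨i, by omega⟩ with hρ₁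
  set ρ₂ : Fin k → ℕ := fun i => ρ ⟨k + i, by omega⟩ with hρ₂
  have hP0 : 1 ≤ P := by omega
  have hX1 : 1 ≤ X := by
    rw [hX]
    have : 0 < 16 * B * P := by positivity
    omega
  have hXr : (1 : ℝ) ≤ X := by exact_mod_cast hX1
  have hq0 : (0 : ℝ) < q := by exact_mod_cast (by omega : 0 < q)
  have hqZ : (q : ℤ) ≠ 0 := by exact_mod_cast (by omega : q ≠ 0)
  obtain ⟨N, hN⟩ := hdvd
  have hsumρ : ∑ i, (ρ i : ℤ) ^ k = ∑ i, (ρ₁ i : ℤ) ^ k + ∑ i, (ρ₂ i : ℤ) ^ k + (r : ℤ) ^ k :=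
    split_sum k fun i => (ρ i : ℤ) ^ k
  -- the two groups
  let s : (Fin k → ℕ) → (Fin k → ℕ) → ℤ := fun τ v => (∑ i, (a k q α (v i) - (τ i : ℤ) ^ k)) / q
  have hs : ∀ τ : Fin k → ℕ, ∀ v ∈ cls k q P τ,
      (q : ℤ) * s τ v = ∑ i, a k q α (v i) - ∑ i, (τ i : ℤ) ^ k := by
    intro τ v hv
    unfold cls at hv
    rw [Fintype.mem_piFinset] at hv
    have h1 : (q : ℤ) ∣ ∑ i, (a k q α (v i) - (τ i : ℤ) ^ k) :=
      dvd_sum fun i _ => a_dvd k q α _ _ (mem_filter.1 (hv i)).2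
    show (q : ℤ) * ((∑ i, (a k q α (v i) - (τ i : ℤ) ^ k)) / q) = _
    rw [Int.mul_ediv_cancel' h1, sum_sub_distrib]
  have hpairs : ∀ τ : Fin k → ℕ, (((cls k q P τ ×ˢ cls k q P τ).filter fun p => s τ p.1 = s τ p.2).card : ℝ) ≤ E := by
    intro τ
    refine le_trans ?_ hE
    have : (cls k q P τ ×ˢ cls k q P τ).filter (fun p => s τ p.1 = s τ p.2) ⊆
        (box k P ×ˢ box k P).filter fun p : (Fin k → ℕ) × (Fin k → ℕ) =>
          ∑ i, a k q α (p.1 i) = ∑ i, a k q α (p.2 i) := by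
      intro p hp
      rw [mem_filter, mem_product] at hp ⊢
      refine ⟨⟨cls_box _ _ _ _ hp.1.1, cls_box _ _ _ _ hp.1.2⟩, ?_⟩
      have h1 := hs τ p.1 hp.1.1
      have h2 := hs τ p.2 hp.1.2
      rw [hp.2] at h1
      linarith
    exact_mod_cast card_le_card this
  have hΓ : (1 : ℝ) ≤ (X : ℝ) ^ σ := Real.one_le_rpow hXr hσ0.le
  have hδ : (0 : ℝ) ≤ (X : ℝ) ^ (1 - σ) := by positivity
  have hcm := hCM (Fin k → ℕ) (cls k q P ρ₁) (cls k q P ρ₂) (s ρ₁) (s ρ₂) X (G k q r α) N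
    ((X : ℝ) ^ σ) ((X : ℝ) ^ (1 - σ)) E (G_cont k q r α) hΓ hδ hS (hpairs ρ₁) (hpairs ρ₂)
  have hXσ : (X : ℝ) / (X : ℝ) ^ σ = (X : ℝ) ^ (1 - σ) := by
    rw [Real.rpow_sub (by linarith), Real.rpow_one]
  rw [hXσ] at hcm
  -- the main term
  have hmain : ((P : ℝ) / (2 * q)) ^ (2 * k) * c ≤
      ∑ v ∈ cls k q P ρ₁, ∑ w ∈ cls k q P ρ₂,
        ∫ u in (0 : ℝ)..X, φ (G k q r α u + s ρ₁ v + s ρ₂ w - N) := by
    have hone : ∀ v ∈ cls k q P ρ₁, ∀ w ∈ cls k q P ρ₂,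
        c ≤ ∫ u in (0 : ℝ)..X, φ (G k q r α u + s ρ₁ v + s ρ₂ w - N) := by
      intro v hv w hw
      have h1 := sum_bd k q α x₀ ha P hP1 v (cls_box _ _ _ _ hv)
      have h2 := sum_bd k q α x₀ ha P hP1 w (cls_box _ _ _ _ hw)
      have e1 := hs ρ₁ v hv
      have e2 := hs ρ₂ w hw
      have e3 : (q : ℤ) * (N - s ρ₁ v - s ρ₂ w) =
          n - ∑ i, a k q α (v i) - ∑ i, a k q α (w i) - (r : ℤ) ^ k := by
        have : (q : ℤ) * (N - s ρ₁ v - s ρ₂ w) = q * N - q * s ρ₁ v - q * s ρ₂ w := by ring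
        rw [this, ← hN, e1, e2, hsumρ]
        ring
      have e4 : (q : ℝ) * ((N : ℝ) - s ρ₁ v - s ρ₂ w) =
          n - ∑ i, (a k q α (v i) : ℝ) - ∑ i, (a k q α (w i) : ℝ) - (r : ℝ) ^ k := by
        exact_mod_cast e3
      set W : ℝ := (N : ℝ) - s ρ₁ v - s ρ₂ w with hW
      have hWlow : (X₀ : ℝ) ≤ W := by
        have : (q : ℝ) * X₀ ≤ q * W := by
          rw [e4]
          nlinarith [h1.2, h2.2, hn1, hP3]
        exact le_of_mul_le_mul_left this hq0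
      have hW0 : 0 ≤ W := le_trans (by positivity) hWlow
      have hWn : (q : ℝ) * W ≤ n := by
        have h6 : (0 : ℝ) ≤ (r : ℝ) ^ k := by positivity
        rw [e4]
        linarith [h1.1, h2.1]
      have h7 := hX₀ W hWlow hWn
      refine h7.trans (le_of_eq ?_)
      congr 1
      funext u
      congr 1
      rw [hW]
      ring
    calc ((P : ℝ) / (2 * q)) ^ (2 * k) * c
        = ((P : ℝ) / (2 * q)) ^ k * (((P : ℝ) / (2 * q)) ^ k * c) := by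
          rw [show 2 * k = k + k by ring, pow_add]; ring
      _ ≤ ((cls k q P ρ₁).card : ℝ) * (((cls k q P ρ₂).card : ℝ) * c) := by
          have h1 := cls_card k q P hq ρ₁ hP2
          have h2 := cls_card k q P hq ρ₂ hP2
          gcongr
      _ = ∑ v ∈ cls k q P ρ₁, ∑ w ∈ cls k q P ρ₂, c := by
          rw [sum_const, sum_const, nsmul_eq_mul, nsmul_eq_mul]
      _ ≤ _ := sum_le_sum fun v hv => sum_le_sum fun w hw => hone v hv w hw
  -- the solutions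
  set U := ((cls k q P ρ₁ ×ˢ (cls k q P ρ₂ ×ˢ range X)).filter
    fun p => s ρ₁ p.1 + s ρ₂ p.2.1 + ⌊G k q r α p.2.2⌋ = N) with hU
  refine ⟨U.image (glue k q r), ?_, ?_⟩
  · rw [card_image_of_injective _ (glue_inj k q r hq)]
    have : 20 * ((X : ℝ) ^ (1 - σ) + (X : ℝ) ^ (1 - σ)) * E = 40 * (X : ℝ) ^ (1 - σ) * E := by ring
    rw [this] at hcm
    linarith [hmain.trans hcm]
  · intro x hx
    rw [mem_image] at hx
    obtain ⟨p, hp, rfl⟩ := hx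
    rw [hU, mem_filter, mem_product, mem_product] at hp
    obtain ⟨⟨hp1, hp2, hp3⟩, hp4⟩ := hp
    have e1 := hs ρ₁ p.1 hp1
    have e2 := hs ρ₂ p.2.1 hp2
    have h1 := sum_bd k q α x₀ ha P hP1 p.1 (cls_box _ _ _ _ hp1)
    have h2 := sum_bd k q α x₀ ha P hP1 p.2.1 (cls_box _ _ _ _ hp2)
    have e3 := a_last k q hq α p.2.2 r
    have hsum : ∑ i, a k q α (glue k q r p i) = n := by
      rw [split_sum k fun i => a k q α (glue k q r p i)]
      simp only [glue_one, glue_two, glue_last]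
      rw [e3]
      have e4 : (n : ℤ) = q * N + ∑ i, (ρ i : ℤ) ^ k := by linarith
      rw [e4, hsumρ, ← hp4]
      have : (q : ℤ) * (s ρ₁ p.1 + s ρ₂ p.2.1 + ⌊G k q r α p.2.2⌋) =
        q * s ρ₁ p.1 + q * s ρ₂ p.2.1 + q * ⌊G k q r α p.2.2⌋ := by ring
      rw [this, e1, e2]
      ring
    have hblk : ∀ τ : Fin k → ℕ, ∀ v ∈ cls k q P τ, ∀ i, 1 ≤ v i ∧ v i % q = τ i % q := by
      intro τ v hv i
      unfold cls at hv
      rw [Fintype.mem_piFinset] at hv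
      have h5 := mem_filter.1 (hv i)
      refine ⟨?_, h5.2⟩
      have h6 := h5.1
      unfold blk at h6
      rw [mem_Icc] at h6
      have : 0 < 2 * ((i : ℕ) + 1) * P := by positivity
      omega
    refine ⟨?_, hsum⟩
    intro i
    rcases lt_trichotomy (i : ℕ) (2 * k) with hi | hi | hi
    · by_cases hi2 : (i : ℕ) < k
      · have h7 := glue_one k q r p ⟨i, hi2⟩
        have h8 : (⟨((⟨i, hi2⟩ : Fin k) : ℕ), by omega⟩ : Fin (2 * k + 1)) = i := Fin.ext rfl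
        rw [h8] at h7
        rw [h7]
        exact hblk ρ₁ p.1 hp1 ⟨i, hi2⟩
      · have hi3 : (i : ℕ) - k < k := by omega
        have h7 := glue_two k q r p ⟨i - k, hi3⟩
        have h8 : (⟨k + ((⟨i - k, hi3⟩ : Fin k) : ℕ), by simp; omega⟩ : Fin (2 * k + 1)) = i :=
          Fin.ext (by simp; omega)
        rw [h8] at h7
        rw [h7]
        have h9 := hblk ρ₂ p.2.1 hp2 ⟨i - k, hi3⟩
        refine ⟨h9.1, h9.2.trans ?_⟩
        show ρ _ % q = ρ i % q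
        rw [h8]
    · have h8 : i = Fin.last (2 * k) := Fin.ext (by simp [hi])
      rw [h8, glue_last]
      refine ⟨?_, by rw [Nat.mul_add_mod]⟩
      by_contra hcon
      have h9 : q * p.2.2 + r = 0 := by omega
      have h10 : a k q α (glue k q r p (Fin.last (2 * k))) = 0 := by
        rw [glue_last, h9]
        unfold a g
        have : (0 : ℤ) ^ k = 0 := zero_pow (by omega)
        push_cast
        rw [this]
        simp
      have h11 := split_sum k fun i => a k q α (glue k q r p i)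
      rw [hsum] at h11
      simp only [glue_one, glue_two] at h11
      rw [h10, add_zero] at h11
      have h12 : (n : ℝ) = ∑ i, (a k q α (p.1 i) : ℝ) + ∑ i, (a k q α (p.2.1 i) : ℝ) := by
        exact_mod_cast h11
      have h13 : (1 : ℝ) ≤ (P : ℝ) ^ k := one_le_pow₀ (by exact_mod_cast hP0)
      have h14 : (1 : ℝ) ≤ (B : ℝ) := by exact_mod_cast hB1
      nlinarith [h1.2, h2.2, hn1]
    · have := i.2
      omega



end Pool.Agent.V5helper26.SP
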